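import Mathlib
import Pool.Agent.Q79.BiharmF

open MeasureTheory AddCircle

namespace Pool.Agent.Results.MP_a0f451_an.BoundedDensity

/-- The open annulus `1/ρ < |ξ| < ρ` around the unit circle. -/
def Annulus (ρ : ℝ) : Set ℂ := {ξ | ρ⁻¹ < ‖ξ‖ ∧ ‖ξ‖ < ρ}

/-- Real-analytic functions on the unit circle: the restrictions of functions holomorphic in a
neighbourhood, equivalently in an annulus `1/ρ < |ξ| < ρ` with `ρ > 1`. -/
def IsRealAnalytic (g : Circle → ℂ) : Prop :=
  ∃ ρ : ℝ, 1 < ρ ∧ ∃ G : ℂ → ℂ, DifferentiableOn ℂ G (Annulus ρ) ∧ ∀ ξ : Circle, G ξ = g ξ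

/-- `ν` is an analytic functional: a linear functional on the space of real-analytic functions
on the circle, continuous for its (inductive limit) topology, that is, bounded with respect to
the supremum norm on each annulus. (The values of `ν` at other functions play no role.) -/
structure IsAnalyticFunctional (ν : (Circle → ℂ) → ℂ) : Prop where
  map_add : ∀ g h, IsRealAnalytic g → IsRealAnalytic h → ν (g + h) = ν g + ν h
  map_smul : ∀ (c : ℂ) g, IsRealAnalytic g → ν (c • g) = c * ν g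
  bound : ∀ ρ : ℝ, 1 < ρ → ∃ C : ℝ, ∀ G : ℂ → ℂ, DifferentiableOn ℂ G (Annulus ρ) →
    ∀ M : ℝ, (∀ ξ ∈ Annulus ρ, ‖G ξ‖ ≤ M) → ‖ν (fun ξ => G ξ)‖ ≤ C * M

/-- The Poisson kernel `P(z,ξ) = (1-|z|²)/|ξ-z|²`. -/
noncomputable def poisson (z : ℂ) (ξ : Circle) : ℝ := (1 - ‖z‖ ^ 2) / ‖(ξ : ℂ) - z‖ ^ 2

/-- The biharmonic Poisson kernel `P₁ = P log P`. -/
noncomputable def poisson₁ (z : ℂ) (ξ : Circle) : ℝ := poisson z ξ * Real.log (poisson z ξ)

/-- The biharmonic Poisson transform `f(z) = ν(P₁(z,·))` of `ν`. -/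
noncomputable def transform (ν : (Circle → ℂ) → ℂ) (z : ℂ) : ℂ :=
  ν (fun ξ => ((poisson₁ z ξ : ℝ) : ℂ))

/-- The circle is parametrised by `ℝ/2πℤ`, `t ↦ e^{it}`, with its Haar probability measure
(normalised arc length). -/
local instance instTwoPiPos : Fact (0 < 2 * Real.pi) := ⟨Real.two_pi_pos⟩

/-- **Q1 has the answer yes**: if the biharmonic Poisson transform `f` of an analytic functional
`ν` satisfies `|f(z)| ≤ C (1 + R)` on the disk, `R = log ((1+|z|)/(1-|z|))`, then `ν` is a measure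
with bounded density. -/
theorem result (ν : (Circle → ℂ) → ℂ) (hν : IsAnalyticFunctional ν) (C : ℝ)
    (hC : ∀ z : ℂ, ‖z‖ < 1 →
      ‖transform ν z‖ ≤ C * (1 + Real.log ((1 + ‖z‖) / (1 - ‖z‖)))) :
    ∃ φ : AddCircle (2 * Real.pi) → ℂ, MemLp φ ⊤ (haarAddCircle (T := 2 * Real.pi)) ∧
      ∀ g : Circle → ℂ, IsRealAnalytic g →
        ν g = ∫ t : AddCircle (2 * Real.pi), g (toCircle t) * φ t ∂haarAddCircle := by
  have hν' : Q79.Biharm.IsAnalyticFunctional ν := ⟨hν.map_add, hν.map_smul, hν.bound⟩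
  exact Q79.Biharm.final hν' hC

end Pool.Agent.Results.MP_a0f451_an.BoundedDensity
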